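import Pool.Agent.Helper28H.FE.Quad2
import Pool.Agent.N874.Jac.Def

/-!
# Finiteness of the Tate-Shafarevich group over a given 2-extension for the twists of every generic odd
# hyperelliptic curve

Let `k` be a finite field of odd characteristic, `K = k(t)`, `g ≥ 1`, and let `f` be a monic polynomial of
degree `2 g + 1` over `k[t]`. We assume that the Galois group of `f` over `K` is the full symmetric group,
and that some prime `P₀` divides the discriminant of `f` exactly once.

A finite Galois extension `L` of `K` of 2-power degree is admissible for `f` and `d ∈ k[t]` if the place at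
infinity, the bad primes (the primes whose squares divide the discriminant) and the primes dividing `d`
split completely in `L`, and `f` is irreducible modulo all the primes which are ramified in `L`. A
polynomial `δ ≠ 0` is admissible for `f` if `f` is irreducible modulo the primes dividing `δ` and `δ` is a
square in the completions of `K` at infinity and at the bad primes.

Theorem. Let `L₀ / K` be a GIVEN extension which is admissible for `f` and `1`. For every `B` there is a
monic squarefree `d`, all of whose prime divisors are of even degree larger than `B`, such that `L₀` and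
`K` are admissible for `f` and `d`, and for ALL extensions `L` which are admissible for `f` and `d` (`L₀`
and `K` among them) and ALL admissible `δ` the Jacobian `A` of the quadratic twist of the curve
`y ^ 2 = f(x)` by `d δ` is uniquely 2-divisible over `L` (so `A(L)` is finite, of odd order), and
`Ш(A/L)[2^∞] = 0`. By the theorem of Tate, Milne, Kato and Trihan `Ш(A/L)` is finite for these `A` and `L`,
in particular for `L = L₀`. Every admissible `L` is contained in admissible fields of degree `2 ^ n` over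
`L`, for all `n`; and there are admissible primes `δ` of arbitrarily large degree for which moreover the
quadratic extension `K(√δ)` is admissible.

So for every such curve and every such given extension `L₀` there are infinitely many twists `A`, the
twists by `d δ` with ONE fixed `d`, for which `Ш(A/L)` is finite for `L = L₀` and for infinitely many `L`
of unbounded degree over `L₀`.

Proof: the project FE (`Pool/Agent/Helper28H/FE`), see the file `MP_ff7320_nt/EveryGenericCurve.lean`; the
primes dividing `d` are chosen such that they split completely in `L₀` (`P₀` is unramified in `L₀` because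
`f` is reducible modulo `P₀`).
-/

set_option autoImplicit false
set_option linter.all false

namespace Pool.Agent.Results.MP_72e2e6_nt.GivenExtensionEveryCurve

open Polynomial IsDedekindDomain
open Pool.Agent.N874.Jac (UniquelyTwoDivisible Cochain Cocycle Coboundary TrivialOver power)
open scoped Classical

/-- The discriminant of a polynomial of degree `2 g + 1`, up to sign. -/
noncomputable def disc {k : Type} [Field k] (g : ℕ) (f : k[X][X]) : k[X] :=
  f.resultant (derivative f) (2 * g + 1) (2 * g)

/-- `f` is monic of degree `2 g + 1`, its Galois group over `K` is the full symmetric group, and the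
prime `P₀` divides the discriminant exactly once. -/
structure IsGeneric {k : Type} [Field k] (K : Type) [Field K] [Algebra k[X] K] (g : ℕ)
    (f : k[X][X]) (P₀ : k[X]) : Prop where
  monic : f.Monic
  degree : f.natDegree = 2 * g + 1
  galois : Nat.card (f.map (algebraMap k[X] K)).Gal = (2 * g + 1).factorial
  prime : Irreducible P₀
  dvd : P₀ ∣ disc g f
  once : ¬ P₀ ^ 2 ∣ disc g f

/-- The valuation `v` of `K = k(t)` is the place at infinity. (`R₁` is a Dedekind domain with field of
fractions `K`, for instance `k[1/t]`.) -/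
def IsInfinity (k : Type) {K R₁ : Type} [Field k] [Field K] [Algebra k[X] K] [CommRing R₁]
    [IsDedekindDomain R₁] [Algebra R₁ K] [IsFractionRing R₁ K] (v : HeightOneSpectrum R₁) : Prop :=
  ∀ p : k[X], p ≠ 0 → v.valuation K (algebraMap k[X] K p) = WithZero.exp (p.natDegree : ℤ)

/-- `f` is irreducible modulo `P`. -/
def IrreducibleMod {k : Type} [Field k] (f : k[X][X]) (P : k[X]) : Prop :=
  Irreducible (f.map (Ideal.Quotient.mk (Ideal.span {P})))

/-- `P` is unramified in the extension `R` of `k[t]`. -/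
def UnramifiedIn (R : Type) {k : Type} [Field k] [CommRing R] [Algebra k[X] R] (P : k[X]) : Prop :=
  ∀ w : HeightOneSpectrum R, algebraMap k[X] R P ∈ w.asIdeal → algebraMap k[X] R P ∉ w.asIdeal ^ 2

/-- `P` is unramified in the extension `M` of `K`: it is unramified in the integral closure of `k[t]`. -/
def Unramified (M : Type) {k : Type} [Field k] [Field M] [Algebra k[X] M] (P : k[X]) : Prop :=
  UnramifiedIn (integralClosure k[X] M) P

/-- `P` splits completely in the extension `R` of `k[t]`: at all primes `w` over `P` it is unramified,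
and every element of `R` is congruent to a polynomial. -/
def SplitsIn (R : Type) {k : Type} [Field k] [CommRing R] [Algebra k[X] R] (P : k[X]) : Prop :=
  ∀ w : HeightOneSpectrum R, algebraMap k[X] R P ∈ w.asIdeal →
    algebraMap k[X] R P ∉ w.asIdeal ^ 2 ∧ ∀ y : R, ∃ c : k[X], y - algebraMap k[X] R c ∈ w.asIdeal

/-- `P` splits completely in the extension `M` of `K`: it does so in the integral closure of `k[t]`. -/
def SplitsCompletely (M : Type) {k : Type} [Field k] [Field M] [Algebra k[X] M] (P : k[X]) :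
    Prop :=
  SplitsIn (integralClosure k[X] M) P

section

variable {k : Type} [Field k] (K : Type) [Field K] [Algebra k[X] K] [IsFractionRing k[X] K]
  {R₁ : Type} [CommRing R₁] [IsDedekindDomain R₁] [Algebra R₁ K] [IsFractionRing R₁ K]
  (v₁ : HeightOneSpectrum R₁)

/-- The polynomial `δ` is a square in the completion of `K` at `v₁`. -/
def SquareAt (δ : k[X]) : Prop := IsSquare (algebraMap K (v₁.adicCompletion K) (algebraMap k[X] K δ))

/-- The polynomial `δ` is a square in the completions of `K` at infinity (the place `v₁`) and at the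
primes whose squares divide the discriminant of `f`. -/
def SquareAtBad (g : ℕ) (f : k[X][X]) (δ : k[X]) : Prop :=
  SquareAt K v₁ δ ∧ ∀ (P : k[X]) (v : HeightOneSpectrum k[X]), Irreducible P →
    v.asIdeal = Ideal.span {P} → P ^ 2 ∣ disc g f → SquareAt K v δ

/-- The polynomial `δ` is admissible for `f`. -/
structure AdmissibleTwist (g : ℕ) (f : k[X][X]) (δ : k[X]) : Prop where
  ne : δ ≠ 0
  irr : ∀ P : k[X], Irreducible P → P ∣ δ → IrreducibleMod f P
  square : SquareAtBad K v₁ g f δ

/-- The extension `M` of `K` is admissible for `f` and `d`: it is Galois of 2-power degree; the place at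
infinity, the primes whose squares divide the discriminant of `f`, and the primes dividing `d` split
completely in `M` (for the place at infinity: there is an embedding of the Galois extension `M` in the
completion of `K`), and `f` is irreducible modulo the primes which are ramified in `M`. -/
structure AdmissibleField (g : ℕ) (f : k[X][X]) (d : k[X]) (M : Type) [Field M] [Algebra K M]
    [Algebra k[X] M] : Prop where
  galois : IsGalois K M
  degree : ∃ n : ℕ, Module.finrank K M = 2 ^ n
  bad : ∀ P : k[X], Irreducible P → P ^ 2 ∣ disc g f → SplitsCompletely M P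
  split : ∀ P : k[X], Irreducible P → P ∣ d → SplitsCompletely M P
  ramified : ∀ P : k[X], Irreducible P → ¬ Unramified M P → IrreducibleMod f P
  infinity : Nonempty (M →ₐ[K] v₁.adicCompletion K)

/-- The field `E` is a completion of `M`: the completion at a maximal ideal of the integral closure `R`
of `k[t]` in `M`, or the completion of `K` at infinity with an embedding `φ` of `M` over `K`. -/
def IsCompletion {M : Type} [Field M] [Algebra K M] (R : Type) [CommRing R] [IsDedekindDomain R]
    [Algebra R M] [IsFractionRing R M] (E : Type) [Field E] [Algebra M E] : Prop :=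
  (∃ w : HeightOneSpectrum R, Nonempty (E ≃ₐ[M] w.adicCompletion M)) ∨
  ∃ (φ : M →ₐ[K] v₁.adicCompletion K) (e : E ≃+* v₁.adicCompletion K),
    ∀ x : M, e (algebraMap M E x) = φ x

/-- Multiplication by two is bijective on `J(M)`, `J` the Jacobian of `y ^ 2 = F(x)`, and every class of
2-power order in `H ^ 1 (M, J)` which is zero over all completions of `M` is zero. -/
def NoTwoPart {M : Type} [Field M] [Algebra K M] (R : Type) [CommRing R] [IsDedekindDomain R]
    [Algebra R M] [IsFractionRing R M] (F : M[X]) : Prop :=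
  UniquelyTwoDivisible F ∧
  ∀ (c : Cochain F) (m : ℕ), Cocycle c →
    (∀ (E : Type) [Field E] [Algebra M E], IsCompletion K v₁ (M := M) R E → TrivialOver E c) →
    Coboundary (power c (2 ^ m)) → Coboundary c

/-- The quadratic twist of `y ^ 2 = f(x)` by `d`, over `M`. -/
noncomputable def twist (d : k[X]) (f : k[X][X]) (M : Type) [Field M] [Algebra k[X] M] : M[X] :=
  (f.scaleRoots d).map (algebraMap k[X] M)

/-- For all extensions `M` admissible for `f` and `d` and all `δ` admissible for `f` the Jacobian of the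
twist of `y ^ 2 = f(x)` by `d δ` has no 2-part over `M`. Here `R` is the integral closure of `k[t]` in
`M`. -/
def NoTwoPartInAll (g : ℕ) (f : k[X][X]) (d : k[X]) : Prop :=
  ∀ (M : Type) [Field M] [Algebra K M] [Algebra k[X] M] [IsScalarTower k[X] K M]
    [FiniteDimensional K M] (R : Type) [CommRing R] [IsDedekindDomain R]
    [Algebra R M] [IsFractionRing R M] [Algebra k[X] R] [IsScalarTower k[X] R M]
    [IsIntegralClosure R k[X] M] (δ : k[X]), AdmissibleField K v₁ g f d M →
    AdmissibleTwist K v₁ g f δ →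
    Irreducible (twist (d * δ) f M) ∧ (twist (d * δ) f M).Separable ∧
      NoTwoPart K v₁ R (twist (d * δ) f M)

end

section

variable {k : Type} [Field k] {K : Type} [Field K] [Algebra k[X] K] [IsFractionRing k[X] K]
  {R₁ : Type} [CommRing R₁] [IsDedekindDomain R₁] [Algebra R₁ K] [IsFractionRing R₁ K]
  {v₁ : HeightOneSpectrum R₁}

theorem IsGeneric.hyp {g : ℕ} {f : k[X][X]} {P₀ : k[X]} (hg : 1 ≤ g) (h2 : (2 : k) ≠ 0)
    (h : IsGeneric K g f P₀) : Pool.Agent.Helper28H.FE.Hyp K g f P₀ :=
  ⟨hg, h2, h.monic, h.degree, h.galois, h.prime, h.dvd, h.once⟩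

theorem AdmissibleTwist.adm {g : ℕ} {f : k[X][X]} {δ : k[X]}
    (h : AdmissibleTwist K v₁ g f δ) : Pool.Agent.Helper28H.FE.AdmD g K v₁ f δ :=
  ⟨h.ne, h.irr, h.square.2, h.square.1⟩

theorem AdmissibleField.adm {g : ℕ} {f : k[X][X]} {d : k[X]} {M : Type} [Field M] [Algebra K M]
    [Algebra k[X] M] (h : AdmissibleField K v₁ g f d M) :
    Pool.Agent.Helper28H.FE.AdmM g K M v₁ f d :=
  ⟨h.galois, h.degree, h.bad, h.split, h.ramified, h.infinity⟩

theorem AdmissibleField.of {g : ℕ} {f : k[X][X]} {d : k[X]} {M : Type} [Field M] [Algebra K M]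
    [Algebra k[X] M] (h : Pool.Agent.Helper28H.FE.AdmM g K M v₁ f d) :
    AdmissibleField K v₁ g f d M :=
  ⟨h.gal, h.deg, h.bad, h.spl, h.ram, h.inf⟩

theorem splits_assoc {M : Type} [Field M] [Algebra k[X] M] {P Q : k[X]} (h : Associated P Q)
    (hs : SplitsCompletely M Q) : SplitsCompletely M P := by
  have key : ∀ I : Ideal (integralClosure k[X] M),
      (algebraMap k[X] (integralClosure k[X] M) P ∈ I ↔
        algebraMap k[X] (integralClosure k[X] M) Q ∈ I) := by
    intro I
    constructor
    · obtain ⟨u, hu⟩ := h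
      intro h1
      rw [← hu, map_mul]
      exact Ideal.mul_mem_right _ _ h1
    · obtain ⟨u, hu⟩ := h.symm
      intro h1
      rw [← hu, map_mul]
      exact Ideal.mul_mem_right _ _ h1
  intro w hw
  obtain ⟨h1, h2⟩ := hs w ((key _).1 hw)
  exact ⟨fun h3 => h1 ((key _).1 h3), h2⟩

/-- The twists are separable. -/
theorem sep_twist {g : ℕ} {f : k[X][X]} {P₀ : k[X]} (h : IsGeneric K g f P₀) {D : k[X]}
    (hD : D ≠ 0) (M : Type) [Field M] [Algebra K M] [Algebra k[X] M] [IsScalarTower k[X] K M] :
    (twist D f M).Separable := by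
  have hm := h.monic
  have hd := h.degree
  have h0 : Pool.Agent.N352.PJ.dsc g f ≠ 0 := fun h0 => h.once (by
    have : disc g f = 0 := h0
    rw [this]
    exact dvd_zero _)
  have h1 : Pool.Agent.N352.PJ.dsc g (f.scaleRoots D) ≠ 0 := by
    rw [(Pool.Agent.Helper28H.FE.dscInv g k f hm hd).2 D hD]
    exact mul_ne_zero (pow_ne_zero _ hD) h0
  have h3 := Pool.Agent.Helper28H.FE.ASM.sepK (K := K) (g := g)
    ((monic_scaleRoots_iff D).2 hm) (by rw [natDegree_scaleRoots, hd]) h1
  have h4 := h3.map (f := algebraMap K M)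
  rwa [Polynomial.map_map, ← IsScalarTower.algebraMap_eq k[X] K M] at h4

/-- The bad primes, and the prime divisors of `d`. -/
theorem exists_T {g : ℕ} {f : k[X][X]} {P₀ : k[X]} (h : IsGeneric K g f P₀) {d : k[X]}
    (hd : d ≠ 0) (hP₀ : ¬ P₀ ∣ d) : ∃ T : Finset k[X],
    (∀ P ∈ T, P.Monic ∧ Irreducible P ∧ ¬ P₀ ∣ P) ∧
    ∀ P : k[X], Irreducible P → P ^ 2 ∣ disc g f ∨ P ∣ d → ∃ P' ∈ T, Associated P P' := by
  have h0 : disc g f ≠ 0 := fun h0 => h.once (by rw [h0]; exact dvd_zero _)
  obtain ⟨T, hT⟩ : ∃ T : Finset k[X], T =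
    ((UniqueFactorizationMonoid.normalizedFactors (disc g f * d)).toFinset).filter
      fun P => P ^ 2 ∣ disc g f ∨ P ∣ d := ⟨_, rfl⟩
  have hTm : ∀ P ∈ T, P.Monic ∧ Irreducible P ∧ (P ^ 2 ∣ disc g f ∨ P ∣ d) := by
    intro P hP
    rw [hT, Finset.mem_filter, Multiset.mem_toFinset] at hP
    have h2 := UniqueFactorizationMonoid.irreducible_of_normalized_factor _ hP.1
    refine ⟨?_, h2, hP.2⟩
    have h3 := UniqueFactorizationMonoid.normalize_normalized_factor _ hP.1
    rw [← h3]
    exact monic_normalize h2.ne_zero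
  refine ⟨T, fun P hP => ⟨(hTm P hP).1, (hTm P hP).2.1, fun hd' => ?_⟩, fun P hP hb => ?_⟩
  · have ha := h.prime.associated_of_dvd (hTm P hP).2.1 hd'
    rcases (hTm P hP).2.2 with h3 | h3
    · exact h.once ((pow_dvd_pow_of_dvd ha.dvd 2).trans h3)
    · exact hP₀ (ha.dvd.trans h3)
  · have hdv : P ∣ disc g f * d := by
      rcases hb with h3 | h3
      · exact (((dvd_pow_self P two_ne_zero).trans h3)).mul_right _
      · exact h3.mul_left _
    obtain ⟨P', hP', ha⟩ := UniqueFactorizationMonoid.exists_mem_normalizedFactors_of_dvd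
      (mul_ne_zero h0 hd) hP hdv
    refine ⟨P', ?_, ha⟩
    rw [hT, Finset.mem_filter, Multiset.mem_toFinset]
    refine ⟨hP', ?_⟩
    rcases hb with h3 | h3
    · exact Or.inl ((pow_dvd_pow_of_dvd ha.symm.dvd 2).trans h3)
    · exact Or.inr (ha.symm.dvd.trans h3)

end

/-- Every extension `L` which is admissible for `f` and `d` is contained in admissible extensions of
degree `2 ^ n` over `L`, for all `n`. -/
def Towers {k : Type} [Field k] (K : Type) [Field K] [Algebra k[X] K] [IsFractionRing k[X] K]
    {R₁ : Type} [CommRing R₁] [IsDedekindDomain R₁] [Algebra R₁ K] [IsFractionRing R₁ K]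
    (v₁ : HeightOneSpectrum R₁) (g : ℕ) (f : k[X][X]) (d : k[X]) : Prop :=
  ∀ (L : Type) [Field L] [Algebra K L] [Algebra k[X] L] [IsScalarTower k[X] K L]
    [FiniteDimensional K L], AdmissibleField K v₁ g f d L → ∀ n : ℕ,
    ∃ (L' : Type) (_ : Field L') (_ : Algebra K L') (_ : Algebra k[X] L')
      (_ : IsScalarTower k[X] K L') (_ : FiniteDimensional K L'), Nonempty (L →ₐ[K] L') ∧
      Module.finrank K L' = Module.finrank K L * 2 ^ n ∧ AdmissibleField K v₁ g f d L'

/-- There are primes `δ` of arbitrarily large degree which are admissible for `f` and for which the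
field `K(√δ)` is admissible for `f` and `d`. -/
def ManyTwists {k : Type} [Field k] (K : Type) [Field K] [Algebra k[X] K] [IsFractionRing k[X] K]
    {R₁ : Type} [CommRing R₁] [IsDedekindDomain R₁] [Algebra R₁ K] [IsFractionRing R₁ K]
    (v₁ : HeightOneSpectrum R₁) (g : ℕ) (f : k[X][X]) (d : k[X]) : Prop :=
  ∀ N : ℕ, ∃ δ : k[X], δ.Monic ∧ Irreducible δ ∧ N < δ.natDegree ∧ AdmissibleTwist K v₁ g f δ ∧
    ∀ (M : Type) [Field M] [Algebra K M] [Algebra k[X] M] [IsScalarTower k[X] K M] (y : M),
      Module.finrank K M = 2 → y ^ 2 = algebraMap k[X] M δ → AdmissibleField K v₁ g f d M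

/-- Let `g ≥ 1`, let `k` be a finite field of odd characteristic and `K = k(t)`. There is a place at
infinity. Let `f` be generic, and let `L₀` be an extension of `K` which is admissible for `f` and `1`. For
every `B` there is a monic squarefree `d`, a square at infinity and at the bad primes, whose prime
divisors are of even degree larger than `B`, such that `L₀` and `K` are admissible for `f` and `d` and the
Jacobians of the twists by `d δ` have no 2-part over `L`, for all admissible `L` and `δ`; there are towers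
of admissible fields over every admissible field, and many admissible `δ`. -/
theorem result (g : ℕ) (hg : 1 ≤ g) (k : Type) [Field k] [Finite k] (h2 : (2 : k) ≠ 0) (K : Type)
    [Field K] [Algebra k[X] K] [IsFractionRing k[X] K] :
    (∃ (R₁ : Type) (_ : CommRing R₁) (_ : IsDedekindDomain R₁) (_ : Algebra R₁ K)
      (_ : IsFractionRing R₁ K) (v₁ : HeightOneSpectrum R₁), IsInfinity k (K := K) v₁) ∧
    ∀ (R₁ : Type) [CommRing R₁] [IsDedekindDomain R₁] [Algebra R₁ K] [IsFractionRing R₁ K]
      (v₁ : HeightOneSpectrum R₁), IsInfinity k (K := K) v₁ →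
    ∀ (f : k[X][X]) (P₀ : k[X]), IsGeneric K g f P₀ →
    ∀ (L₀ : Type) [Field L₀] [Algebra K L₀] [Algebra k[X] L₀] [IsScalarTower k[X] K L₀]
      [FiniteDimensional K L₀], AdmissibleField K v₁ g f 1 L₀ → ∀ B : ℕ,
    ∃ d : k[X], d.Monic ∧ Squarefree d ∧ SquareAtBad K v₁ g f d ∧
      (∀ Q : k[X], Irreducible Q → Q ∣ d → B < Q.natDegree ∧ Even Q.natDegree) ∧
      AdmissibleField K v₁ g f d L₀ ∧ AdmissibleField K v₁ g f d K ∧
      NoTwoPartInAll K v₁ g f d ∧ Towers K v₁ g f d ∧ ManyTwists K v₁ g f d := by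
  refine ⟨Pool.Agent.Helper28H.FE.inf k K, ?_⟩
  intro R₁ _ _ _ _ v₁ hv f P₀ hf L₀ _ _ _ _ _ hL₀ B
  have hyp := hf.hyp hg h2
  haveI := hL₀.galois
  have hE : Pool.Agent.Helper28H.FE.UnrAt L₀ P₀ :=
    Pool.Agent.Helper28H.FE.Quad2.unr_P₀ hyp hL₀.adm
  have h2K : ∀ (M : Type) [Field M] [Algebra k[X] M], (2 : M) ≠ 0 := by
    intro M _ _ h0
    obtain ⟨c, hc⟩ := Pool.Agent.Helper28H.FE.Cyc.two_unit (A := M) h2
    rw [h0, mul_zero] at hc
    exact zero_ne_one hc
  obtain ⟨J, hJ, hsq, hall⟩ := Pool.Agent.Helper28H.FE.MainE.mainT g k K f P₀ R₁ v₁ L₀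
    (max B P₀.natDegree) hyp hv hE
  obtain ⟨d, hdd⟩ : ∃ d : k[X], d = ∏ Q ∈ J, Q := ⟨_, rfl⟩
  have hJ' : ∀ Q ∈ J, Q.Monic ∧ Irreducible Q := fun Q hQ => ⟨(hJ Q hQ).1, (hJ Q hQ).2.1⟩
  have hmem : ∀ P : k[X], Irreducible P → P ∣ d → ∃ Q ∈ J, Associated P Q := by
    intro P hP h
    rw [hdd] at h
    obtain ⟨Q, hQ, hd⟩ := hP.prime.exists_mem_finset_dvd h
    exact ⟨Q, hQ, hP.associated_of_dvd (hJ Q hQ).2.1 hd⟩
  have hdm : d.Monic := by
    rw [hdd]
    exact monic_prod_of_monic _ _ fun Q hQ => (hJ Q hQ).1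
  have hd0 : d ≠ 0 := hdm.ne_zero
  have hdeg : ∀ {P Q : k[X]}, Associated P Q → P.natDegree = Q.natDegree := fun h =>
    natDegree_eq_of_degree_eq (degree_eq_degree_of_associated h)
  have hP₀d : ¬ P₀ ∣ d := by
    intro h
    obtain ⟨Q, hQ, ha⟩ := hmem P₀ hf.prime h
    have h3 := (hJ Q hQ).2.2.1
    rw [← hdeg ha] at h3
    exact absurd (le_max_right B P₀.natDegree) (not_le.2 h3)
  obtain ⟨hsql1, hsql2⟩ := Pool.Agent.Helper28H.FE.sql k K h2
  have hdev : Even d.natDegree := by
    rw [hdd, natDegree_prod_of_monic _ _ fun Q hQ => (hJ Q hQ).1]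
    exact Finset.even_sum _ fun Q hQ => (hJ Q hQ).2.2.2.1
  obtain ⟨T, hT, hTP⟩ := exists_T hf hd0 hP₀d
  refine ⟨d, hdm, ?_, ⟨hsql1 R₁ v₁ hv d hdm hdev, ?_⟩, fun Q hQ hQd => ?_, ?_, ?_, ?_, ?_, fun N => ?_⟩
  · rw [hdd]
    exact Pool.Agent.N615.JM.prod_sqf J hJ'
  · intro P v hP hvP hP2
    rw [hdd]
    exact hsq P v hP hvP hP2
  · obtain ⟨Q', hQ', ha⟩ := hmem Q hQ hQd
    obtain ⟨a1, a2, a3, a4, a5⟩ := hJ Q' hQ'
    rw [hdeg ha]
    exact ⟨lt_of_le_of_lt (le_max_left _ _) a3, a4⟩
  · refine ⟨hL₀.galois, hL₀.degree, hL₀.bad, fun P hP hPd => ?_, hL₀.ramified, hL₀.infinity⟩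
    obtain ⟨Q, hQ, ha⟩ := hmem P hP hPd
    exact splits_assoc ha (hJ Q hQ).2.2.2.2
  · refine ⟨inferInstance, ⟨0, by rw [Module.finrank_self, pow_zero]⟩, fun P hP _ => ?_,
      fun P hP _ => ?_, fun P hP hu => ?_, ⟨Algebra.ofId K _⟩⟩
    · exact Pool.Agent.Helper28H.FE.MainE.split_base hP
    · exact Pool.Agent.Helper28H.FE.MainE.split_base hP
    · exact absurd (fun w hw => (Pool.Agent.Helper28H.FE.MainE.split_base hP w hw).1) hu
  · intro M _ _ _ _ _ R _ _ _ _ _ _ _ δ hM hδ
    have hdδ : d * δ ≠ 0 := mul_ne_zero hd0 hδ.ne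
    obtain ⟨h3, h4⟩ := hall δ hδ.adm M R (by rw [← hdd]; exact hM.adm)
    rw [← hdd] at h3 h4
    have hsep := sep_twist hf hdδ M
    have hmT : (twist (d * δ) f M).Monic := ((monic_scaleRoots_iff _).2 hf.monic).map _
    have hoT : Odd (twist (d * δ) f M).natDegree := by
      rw [twist, ((monic_scaleRoots_iff _).2 hf.monic).natDegree_map, natDegree_scaleRoots,
        hf.degree]
      exact odd_two_mul_add_one g
    obtain ⟨h5, h6⟩ := Pool.Agent.N352.JB.gen (h2K M) hmT h3 hsep hoT h4
    exact ⟨h3, hsep, Pool.Agent.N874.Jac.div_of _ h5, fun c m h7 h8 h9 => h6 c m h7 h8 h9⟩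
  · intro L _ _ _ _ _ hL n
    obtain ⟨E, iF, iA, iX, iT, iFD, h3, h4, h5⟩ :=
      Pool.Agent.Helper28H.FE.Quad2.tower hv hyp hT hTP L hL.adm n
    exact ⟨E, iF, iA, iX, iT, iFD, h3, h4, AdmissibleField.of h5⟩
  · obtain ⟨δ, b1, b2, b3, b4, b5, b6⟩ :=
      Pool.Agent.Helper28H.FE.MainE.exists_prime hyp T hT N
    have hloc : ∀ P : k[X], Irreducible P → P ^ 2 ∣ disc g f ∨ P ∣ d →
        ¬ P ∣ δ ∧ ∃ z : k[X], P ∣ δ - z ^ 2 := by
      intro P hP hb
      obtain ⟨P', hP', ha⟩ := hTP P hP hb
      obtain ⟨c1, z, c2⟩ := b6 P' hP'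
      exact ⟨fun hd => c1 (ha.symm.dvd.trans hd), z, ha.dvd.trans c2⟩
    have hinf := hsql1 R₁ v₁ hv δ b1 b4
    have hirr : ∀ P : k[X], Irreducible P → P ∣ δ →
        Irreducible (f.map (Ideal.Quotient.mk (Ideal.span {P}))) := by
      intro P hP hd
      have e : Ideal.span {P} = Ideal.span {δ} :=
        Ideal.span_singleton_eq_span_singleton.2 (hP.associated_of_dvd b2 hd)
      rw [e]
      exact b5
    refine ⟨δ, b1, b2, b3, ⟨b1.ne_zero, hirr, hinf, fun P v hP hvP hP2 => ?_⟩, ?_⟩
    · obtain ⟨c1, z, c2⟩ := hloc P hP (Or.inl hP2)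
      exact hsql2 P δ z v hP hvP c1 c2
    · intro M _ _ _ _ y hM hy
      refine AdmissibleField.of (Pool.Agent.Helper28H.FE.quad g k K M R₁ v₁ f d δ y h2 hM hy ?_
        hirr (fun P hP h => hloc P hP (Or.inl h)) (fun P hP h => hloc P hP (Or.inr h)) hinf)
      -- `δ` is not a square in `K`
      intro x hx
      rw [← hx, ← map_pow, IsScalarTower.algebraMap_apply k[X] K M] at hy
      have h3 : x ^ 2 = algebraMap k[X] K δ := (algebraMap K M).injective hy
      obtain ⟨c, hc⟩ := IsIntegrallyClosed.isIntegral_iff.1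
        (IsIntegral.of_pow (n := 2) two_pos (by rw [h3]; exact isIntegral_algebraMap) :
          IsIntegral k[X] x)
      rw [← hc, ← map_pow] at h3
      have h4 : c ^ 2 = δ := IsFractionRing.injective k[X] K h3
      rw [← h4] at b2
      exact not_irreducible_pow (by norm_num) b2

end Pool.Agent.Results.MP_72e2e6_nt.GivenExtensionEveryCurve
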